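import Mathlib
import Pool.Agent.H.MP_2a9600_co.B

namespace Pool.Agent.Results.MP_2a9600_co.Yes

open Polynomial Finset Pool.Agent.H.MP_2a9600_co Pool.Agent.Lib.helper26.Berge

/-- Number of edge coverings with exactly `i` edges. -/
noncomputable def e {V : Type} (G : SimpleGraph V) (i : ℕ) : ℕ :=
  {S : Finset (Sym2 V) | (S : Set (Sym2 V)) ⊆ G.edgeSet ∧ (∀ v, ∃ s ∈ S, v ∈ s) ∧ #S = i}.ncard

/-- The edge cover polynomial. -/
noncomputable def E {V : Type} (G : SimpleGraph V) : ℂ[X] :=
  ∑ i ∈ range (G.edgeSet.ncard + 1), C (e G i : ℂ) * X ^ i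

lemma alg {P : ℂ[X]} (hm : P.Monic) (h0 : P.coeff 0 = 0) (h : #P.roots.toFinset ≤ 2) :
    ∃ a b c, 1 ≤ a ∧ a + b = P.natDegree ∧ P = X ^ a * (X + C c) ^ b := by
  have z : (0 : ℂ) ∈ P.roots := (mem_roots hm.ne_zero).2 (by rwa [IsRoot, ← coeff_zero_eq_eval_zero])
  obtain ⟨r, r0, hr⟩ : ∃ r : ℂ, 0 ≠ r ∧ P.roots.toFinset ⊆ {0, r} := by
    have := card_erase_of_mem (Multiset.mem_toFinset.2 z)
    obtain ⟨x, hx⟩ := card_le_one_iff_subset_singleton.1 (show #(P.roots.toFinset.erase 0) ≤ 1 by omega)
    refine ⟨if x = 0 then 1 else x, by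
      split_ifs with c
      exacts [zero_ne_one, Ne.symm c], fun y hy => ?_⟩
    by_cases c : y = 0
    · simp [c]
    · have := mem_singleton.1 (hx (mem_erase.2 ⟨c, hy⟩))
      simp_all
  have k : P = X ^ P.roots.count 0 * (X + C (-r)) ^ P.roots.count r := by
    conv_lhs => rw [(IsAlgClosed.splits P).eq_prod_roots_of_monic hm, prod_multiset_map_count,
      prod_subset hr fun x _ hx => by rw [Multiset.count_eq_zero.2 (by simpa using hx), pow_zero],
      prod_pair r0]
    simp [sub_eq_add_neg]
  refine ⟨_, _, _, Multiset.one_le_count_iff_mem.2 z, ?_, k⟩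
  conv_rhs => rw [k, natDegree_mul (by simp) (pow_ne_zero _ (X_add_C_ne_zero _))]
  simp only [natDegree_pow, natDegree_X, natDegree_X_add_C, mul_one]

/-- A connected graph of minimum degree two other than the triangle has an edge cover polynomial
with at least three distinct complex roots. -/
theorem result {n : ℕ} (G : SimpleGraph (Fin n)) [DecidableRel G.Adj] (hc : G.Connected)
    (hδ : G.minDegree = 2) (h3 : IsEmpty (G ≃g (⊤ : SimpleGraph (Fin 3)))) :
    3 ≤ #(E G).roots.toFinset := by
  by_contra hr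
  have hd : ∀ v, 2 ≤ G.degree v := fun v => hδ ▸ G.minDegree_le_degree v
  obtain ⟨v0⟩ := hc.nonempty
  have em : G.edgeSet.ncard = #G.edgeFinset := by rw [← G.coe_edgeFinset, Set.ncard_coe_finset]
  have co : ∀ i, (E G).coeff i = ec G i := fun i => by
    have : e G i = ec G i := by
      rw [e, ec, ← Set.ncard_coe_finset]
      congr 1; ext T
      rw [mem_coe, mem_filter, mem_powersetCard, Set.mem_setOf_eq, ← G.coe_edgeFinset, coe_subset, cov]
      tauto
    simp only [E, finset_sum_coeff, coeff_C_mul_X_pow, sum_ite_eq, mem_range, em, this]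
    split_ifs with c
    · rfl
    · rw [ec, powersetCard_eq_empty.2 (by omega)]; simp
  have deg := G.sum_degrees_eq_twice_card_edges
  have f1 := card_filter_add_card_filter_not (s := univ) fun v => G.degree v = 2
  have f2 := sum_filter_add_sum_filter_not univ (fun v => G.degree v = 2) fun v => G.degree v
  have f3 := card_nsmul_le_sum {v | G.degree v = 2} _ 2 fun v _ => hd v
  have f4 := card_nsmul_le_sum {v | ¬ G.degree v = 2} (fun v => G.degree v) 3 fun v hv => by
    have := hd v; have := (mem_filter.1 hv).2; omega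
  have f5 := G.card_edgeFinset_le_card_choose_two
  have f6 := G.degree_lt_card_verts v0
  have f7 := hd v0
  simp only [smul_eq_mul, card_univ, Fintype.card_fin] at f1 f3 f4 f5 f6
  have nd : (E G).natDegree = #G.edgeFinset := natDegree_eq_of_le_of_coeff_ne_zero
    (natDegree_le_iff_coeff_eq_zero.2 fun i hi => by
      rw [co, ec, powersetCard_eq_empty.2 hi]; simp) (by rw [co, ec_top hd (by omega)]; simp)
  obtain ⟨a, b, c, a1, ab, hE⟩ := alg (P := E G) (by
    rw [Monic, leadingCoeff, nd, co, ec_top hd (by omega)]; simp) (by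
    rw [co, ec, powersetCard_zero, filter_singleton, if_neg fun h => by simpa using h v0]; simp)
    (by omega)
  rw [nd] at ab
  have c1 : ∀ i, (ec G (i + a) : ℂ) = c ^ (b - i) * b.choose i := fun i => by
    rw [← co, hE, coeff_X_pow_mul, coeff_X_add_C_pow]
  have c2 : ∀ i < a, ec G i = 0 := fun i hi => by
    have := co i
    rw [hE, coeff_X_pow_mul', if_neg (by omega)] at this
    exact_mod_cast this.symm
  generalize hm : #G.edgeFinset = m at *
  obtain ⟨b, rfl⟩ : ∃ k, b = k + 1 := ⟨b - 1, by
    by_contra k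
    have := c2 (m - 1) (by omega)
    rw [ec_top hd (by omega), hm, Nat.choose_eq_zero_iff] at this; omega⟩
  have c3 := c1 b
  rw [ec_top hd (by omega), hm, ← ab, show a + (b + 1) = b + a + 1 by omega,
    Nat.choose_succ_self_right, Nat.choose_succ_self_right, Nat.add_sub_cancel_left, pow_one] at c3
  obtain ⟨c, rfl⟩ : ∃ k : ℕ, c = k := by
    have k : (b + a + 1) ^ (b + 1) = (b + 1) ^ (b + 1) * ec G a := by
      have := c1 0
      simp only [zero_add, Nat.sub_zero, Nat.choose_zero_right, Nat.cast_one, mul_one] at this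
      exact_mod_cast (by rw [c3, this]; ring : ((b + a + 1 : ℕ) : ℂ) ^ (b + 1) =
        ((b + 1 : ℕ) : ℂ) ^ (b + 1) * ec G a)
    obtain ⟨k, hk⟩ := (Nat.pow_dvd_pow_iff (Nat.succ_ne_zero b)).1 ⟨_, k⟩
    refine ⟨k, mul_right_cancel₀ (Nat.cast_ne_zero.2 (Nat.succ_ne_zero b)) ?_⟩
    rw [← c3, hk]; push_cast; ring
  replace c3 : m = c * (b + 1) := by rw [← ab]; exact_mod_cast (by rw [← c3]; push_cast; ring :
    ((a + (b + 1) : ℕ) : ℂ) = c * (b + 1 : ℕ))
  replace c1 : ∀ i, ec G (i + a) = c ^ (b + 1 - i) * (b + 1).choose i := by exact_mod_cast c1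
  have c4 : 2 * #{v | G.degree v = 2} + m = m * c := by
    obtain ⟨k, rfl⟩ : ∃ k, m = k + 2 := ⟨m - 2, by omega⟩
    have t := ec_two hd hm
    rw [hm, Nat.choose_symm_add, Nat.choose_two_right] at t
    have t2 := Nat.div_mul_cancel (Nat.even_mul_pred_self (k + 2)).two_dvd
    simp only [show k + 2 - 1 = k + 1 by omega] at t t2
    rcases b with _ | b
    · rw [c2 k (by omega)] at t; nlinarith
    · have t3 := c1 b
      have t4 := Nat.div_mul_cancel (Nat.even_mul_pred_self (b + 2)).two_dvd
      rw [show b + a = k by omega, show b + 1 + 1 - b = 2 by omega, add_assoc b 1 1,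
        Nat.choose_symm_add, one_add_one_eq_two, Nat.choose_two_right] at t3
      simp only [show b + 2 - 1 = b + 1 by omega] at t3 t4
      have : 2 * ec G k + c * (k + 2) = (k + 2) * (k + 2) := by
        rw [t3, c3]; linear_combination c ^ 2 * t4
      nlinarith
  have mat : ∀ d, Even (n + d) → n + d < 2 * a → ∃ (S : Finset (Fin n)) (K : Finset (Finset (Fin n))),
      #S + d + 2 ≤ #K ∧ (∀ C ∈ K, Odd #C ∧ Disjoint C S ∧
        ∀ v ∈ C, ∀ w, G.Adj v w → w ∈ C ∨ w ∈ S) ∧ (K : Set (Finset (Fin n))).PairwiseDisjoint id :=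
    fun d h1 h2 => (tb G d (by simpa using h1)).resolve_left fun ⟨f, g1, g2, g3⟩ => by
      obtain ⟨i, i1, i2⟩ := cov_of hd g1 g2
      rw [Fintype.card_fin] at i2
      exact i1 (c2 i (by omega))
  obtain rfl | rfl : c = 2 ∨ c = 3 := by
    have : c < 4 := by by_contra k; nlinarith
    have : 1 < c := by by_contra k; nlinarith
    omega
  · by_cases m2 : n + 2 ≤ m
    · obtain ⟨S, K, k1, k2, k3⟩ := mat (m - n - 2) ⟨a - 1, by omega⟩ (by omega)
      have := final hc hd (by omega) k2 k3 (by rw [hm, Fintype.card_fin]; omega) (a := a)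
        (by omega) (by omega)
      have t : (E G).eval 1 = 3 ^ a := by rw [hE, show b + 1 = a by omega]; simp; norm_num
      rw [eval_eq_sum_range, nd] at t
      simp only [co, one_pow, mul_one] at t
      rw [card_eq_sum_card_fiberwise (f := card) (t := range (m + 1)) fun T hT => by
        have := card_le_card (mem_powerset.1 (mem_filter.1 hT).1)
        simp only [coe_range, Set.mem_Iio]; omega] at this
      refine this.ne (Eq.trans (sum_congr rfl fun i _ => ?_) (by exact_mod_cast t))
      rw [ec, powersetCard_eq_filter, filter_comm]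
    · have : n = 3 ∨ n = 5 := by omega
      rcases this with rfl | rfl
      · simp at f5; omega
      obtain rfl : b = 2 := by omega
      obtain rfl : a = 3 := by omega
      have := five G.edgeFinset (mem_powersetCard.2 ⟨SimpleGraph.edgeFinset_mono le_top, by omega⟩)
      exact this.elim (· (c1 2)) (·.elim (· (c1 1)) (· (c1 0)))
  · by_cases m2 : n ≤ 3
    · obtain rfl : n = 3 := by omega
      have : G = ⊤ := by
        rw [← SimpleGraph.edgeFinset_inj]
        exact eq_of_subset_of_card_le (SimpleGraph.edgeFinset_mono le_top) (by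
          rw [SimpleGraph.card_edgeFinset_top_eq_card_choose_two, hm]; simp; omega)
      exact h3.false (this ▸ .refl)
    · obtain ⟨S, K, k1, k2, k3⟩ := mat (n % 2) (by rw [Nat.even_iff]; omega) (by omega)
      have := (barrier hc hd (by omega) k2 k3).2.1
      rw [Fintype.card_fin] at this; omega

end Pool.Agent.Results.MP_2a9600_co.Yes
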